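import Pool.Agent.H15.SC.Ms

/-!
Module LF of block B5 (MP_f2954d_ag): the form given by `n - 2` very ample divisors is Lorentzian
(helper51).
-/

namespace Pool.Agent.H51.SCX

open SC SCB

lemma toR_add {K : Type} [Field K] [Algebra ℂ K] {N : ℕ} {w : Fin (N + 1) → K}
    (A B : DivZ w) : toR (A + B) = toR A + toR B := by
  ext v
  simp [toR]

theorem lf (hYLL : T_YLL) (hMX : T_MX) (hPX : T_PX) (hHX : T_HX) (hSPN : T_SPN) (hXQ : T_XQ)
    (hXR1 : T_XR1) (hXI : T_XI) (hGL : SCB.T_GL) : T_LF := by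
  classical
  intro K _ _ N n w i₀ H₀ μ hX hH hμ J _ D hJ hD
  obtain ⟨q1, -, -, q4, -, q6⟩ := hXQ K N n w hX i₀ H₀ hH
  obtain ⟨-, ga, gs⟩ := hGL (DivR w) n μ hμ.1
  have hess : Algebra.EssFiniteType ℂ K := hXI K N n w hX
  -- good systems
  have hT : ∀ j, ∃ T, Nice i₀ H₀ (D j) T := fun j => (q4 (D j)).1 (hD j)
  choose T hTn using hT
  have n1 : 1 ≤ n := by omega
  have card2 : Fintype.card (J ⊕ Fin 2) = n := by
    rw [Fintype.card_sum, Fintype.card_fin]; exact hJ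
  -- the key formula
  have key : ∀ (A B : DivZ w) (TA TB : Sys K), Nice i₀ H₀ A TA → Nice i₀ H₀ B TB →
      ofMulti μ (toR A ::ₘ toR B ::ₘ ms fun j => toR (D j)) =
        (Idx (Sum.elim T ![TA, TB]) ℂ : ℝ) := by
    intro A B TA TB hA hB
    have hn : ∀ j, Nice i₀ H₀ (Sum.elim D ![A, B] j) (Sum.elim T ![TA, TB] j) := by
      rintro (j | j)
      · exact hTn j
      · fin_cases j
        · exact hA
        · exact hB
    have := hMX K N n w i₀ H₀ μ hX n1 hH hμ (J ⊕ Fin 2) (Sum.elim D ![A, B])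
      (Sum.elim T ![TA, TB]) card2 hn
    rw [← this]
    congr 1
    symm
    exact ms_elim2 (fun j => toR (D j)) ![toR A, toR B] _ (fun i => rfl)
      (fun i => by fin_cases i <;> rfl)
  refine hYLL (DivR w) (fun x y => ofMulti μ (x ::ₘ y ::ₘ ms fun j => toR (D j)))
    {x | ∃ A : DivZ w, VAmp H₀ A ∧ x = toR A} ?_ ?_ ?_ ?_ ?_
  · refine ⟨fun x y => ?_, fun a b y => ?_, fun c a y => ?_⟩
    · show ofMulti μ _ = ofMulti μ _
      rw [Multiset.cons_swap]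
    · exact ga _ _ _ (by rw [Multiset.card_cons, card_ms]; omega)
    · exact gs _ _ _ (by rw [Multiset.card_cons, card_ms]; omega)
  · rintro a ⟨A, hA, rfl⟩ b ⟨B, hB, rfl⟩
    exact ⟨A + B, q1 A B hA hB, (toR_add A B).symm⟩
  · exact (hSPN K N n w i₀ H₀ hX hH).2.1
  · rintro a ⟨A, hA, rfl⟩ b ⟨B, hB, rfl⟩
    obtain ⟨TA, hTA⟩ := (q4 A).1 hA
    obtain ⟨TB, hTB⟩ := (q4 B).1 hB
    show 0 < ofMulti μ _
    rw [key A B TA TB hTA hTB]
    have hn : ∀ j, Nice i₀ H₀ (Sum.elim D ![A, B] j) (Sum.elim T ![TA, TB] j) := by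
      rintro (j | j)
      · exact hTn j
      · fin_cases j
        · exact hTA
        · exact hTB
    have := (hPX K N n w i₀ H₀ hX hH (J ⊕ Fin 2) (Sum.elim D ![A, B])
      (Sum.elim T ![TA, TB]) hn).1 card2
    exact_mod_cast Nat.pos_of_ne_zero this
  · rintro a ⟨A, hA, rfl⟩ b ⟨B, hB, rfl⟩
    obtain ⟨TA, hTA⟩ := (q4 A).1 hA
    obtain ⟨TB, hTB⟩ := (q4 B).1 hB
    show ofMulti μ _ * ofMulti μ _ ≤ ofMulti μ _ ^ 2
    rw [key A B TA TB hTA hTB, key A A TA TA hTA hTA, key B B TB TB hTB hTB]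
    have := hHX ℂ K J T TA TB (fun j => (q6 _ _ (hTn j)).2) (q6 _ _ hTA).2 (q6 _ _ hTB).2
      (hXR1 K N n w hX i₀ H₀ A TA hH hTA) (hXR1 K N n w hX i₀ H₀ B TB hH hTB)
      (by rw [hX.dim, hJ])
    exact_mod_cast this

end Pool.Agent.H51.SCX
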