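import Pool.Agent.H15.SC.Ms

/-!
Module SCL of block B5 (MP_f2954d_ag): scaling of some factors (helper51).
-/

namespace Pool.Agent.H51.SCX

open SC SCB

theorem scl (hIN : T_IN) : T_SCL := by
  classical
  intro K _ _ N n w μ hμ ι S q x
  obtain ⟨-, -, h3, -⟩ := hIN K N n w μ hμ
  induction S using Finset.induction_on with
  | empty =>
    intro t _
    simp [mss_empty]
  | insert i S hi ih =>
    intro t ht
    rw [Finset.card_insert_of_notMem hi] at ht
    rw [mss_insert _ _ hi, mss_insert _ _ hi, Multiset.add_cons, Multiset.add_cons,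
      h3 _ _ _ (by rw [Multiset.card_add, card_mss]; omega), Finset.prod_insert hi]
    have e := ih (x i ::ₘ t) (by rw [Multiset.card_cons]; omega)
    rw [Multiset.cons_add, Multiset.cons_add] at e
    rw [e]
    ring

end Pool.Agent.H51.SCX
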